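import Mathlib
import Pool.Agent.GemWidth.ClassX
import Pool.Agent.GemWidth.Convert
import Pool.Agent.GemWidth.C5free
import Pool.Agent.GemWidth.C5Main
import Pool.Agent.GemWidth.NoTwoP2
import Pool.Agent.GemWidth.TwoCompsFinal
import Pool.Agent.GemWidth.ManyComps
import Pool.Agent.GemWidth.EO

/-!
The class of `(gem, P₂ + P₃)`-free graphs has bounded clique-width (an own statement beside our proof of `S08869`):
clique-width is defined by an inductive, isomorphism invariant construction of labelled graphs, the vertex sets lie in an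
arbitrary universe, the empty graph is included.
-/

set_option autoImplicit false

open Pool.Agent.GemWidth

namespace Pool.Agent.Results.MP_57fa5f_co.BoundedCliqueWidth

universe u

/-- `Built k G l`: the graph `G`, whose vertices `v` carry labels `l v` (out of `k` labels), is built from single labelled
vertices by taking disjoint unions, by adding every edge between a vertex labelled `i` and a vertex labelled `j` (`i ≠ j`), and
by relabelling every vertex labelled `i` with the label `j`, up to isomorphism. -/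
inductive Built (k : ℕ) : ∀ {V : Type u}, SimpleGraph V → (V → Fin k) → Prop
  | vertex {V : Type u} [Unique V] (l : V → Fin k) : Built k (⊥ : SimpleGraph V) l
  | union {V W : Type u} {G : SimpleGraph V} {H : SimpleGraph W} {l : V → Fin k} {m : W → Fin k} :
      Built k G l → Built k H m → Built k (G ⊕g H) (Sum.elim l m)
  | join {V : Type u} {G : SimpleGraph V} {l : V → Fin k} (i j : Fin k) : i ≠ j → Built k G l →
      Built k (G ⊔ SimpleGraph.fromRel fun u v => l u = i ∧ l v = j) l
  | relabel {V : Type u} {G : SimpleGraph V} {l : V → Fin k} (i j : Fin k) : Built k G l →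
      Built k G fun v => if l v = i then j else l v
  | iso {V W : Type u} {G : SimpleGraph V} {H : SimpleGraph W} {l : V → Fin k} (e : G ≃g H) :
      Built k G l → Built k H fun w => l (e.symm w)

/-- `G` has clique-width at most `k` (the empty graph has clique-width `0`). -/
def CliqueWidthLe {V : Type u} (G : SimpleGraph V) (k : ℕ) : Prop :=
  IsEmpty V ∨ ∃ l : V → Fin k, Built k G l

/-- the gem, the complement of `P₁ + P₄` -/
def gem : SimpleGraph (Fin 1 ⊕ Fin 4) := (SimpleGraph.pathGraph 1 ⊕g SimpleGraph.pathGraph 4)ᶜ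

/-- `P₂ + P₃` -/
def edgePath : SimpleGraph (Fin 2 ⊕ Fin 3) := SimpleGraph.pathGraph 2 ⊕g SimpleGraph.pathGraph 3

/-- the predicate to which the operations of `cw_of_W` are applied -/
def PP {V : Type} (k : ℕ) (S : Set V) (l : V → Fin k) (H : SimpleGraph V) : Prop :=
  (∀ u v, H.Adj u v → u ∈ S ∧ v ∈ S) ∧ Built k (H.induce S) fun v => l v

theorem pp_vertex {V : Type} (k : ℕ) (v : V) (l : V → Fin k) : PP k ({v} : Set V) l ⊥ := by
  refine ⟨fun _ _ h => h.elim, ?_⟩
  have : ((⊥ : SimpleGraph V).induce {v}) = ⊥ := by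
    ext a b; simp
  rw [this]
  let _ : Unique ({v} : Set V) := Set.uniqueSingleton v
  exact Built.vertex _

theorem pp_union {V : Type} (k : ℕ) (S1 S2 : Set V) (l1 l2 l0 : V → Fin k) (H1 H2 : SimpleGraph V)
    (h1 : PP k S1 l1 H1) (h2 : PP k S2 l2 H2) (hd : Disjoint S1 S2) (e1 : ∀ u ∈ S1, l0 u = l1 u)
    (e2 : ∀ u ∈ S2, l0 u = l2 u) : PP k (S1 ∪ S2) l0 (H1 ⊔ H2) := by
  classical
  have hn : ∀ x, x ∈ S1 → x ∈ S2 → False := fun x a b => Set.disjoint_left.mp hd a b
  refine ⟨fun u v h => ?_, ?_⟩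
  · rcases h with h | h
    · exact ⟨Or.inl (h1.1 u v h).1, Or.inl (h1.1 u v h).2⟩
    · exact ⟨Or.inr (h2.1 u v h).1, Or.inr (h2.1 u v h).2⟩
  · have hu := Built.union h1.2 h2.2
    let e : ((H1.induce S1) ⊕g (H2.induce S2)) ≃g ((H1 ⊔ H2).induce (S1 ∪ S2)) :=
      { toEquiv := (Equiv.Set.union hd).symm
        map_rel_iff' := by
          rintro (⟨a, ha⟩ | ⟨a, ha⟩) (⟨b, hb⟩ | ⟨b, hb⟩)
          · simp only [Equiv.Set.union_symm_apply_left, SimpleGraph.comap_adj, Function.Embedding.subtype_apply,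
              SimpleGraph.sup_adj, SimpleGraph.sum_adj]
            exact ⟨fun h => h.elim id fun h => (hn a ha (h2.1 a b h).1).elim, Or.inl⟩
          · simp only [Equiv.Set.union_symm_apply_left, Equiv.Set.union_symm_apply_right, SimpleGraph.comap_adj,
              Function.Embedding.subtype_apply, SimpleGraph.sup_adj]
            constructor
            · rintro (h | h)
              · exact (hn b (h1.1 a b h).2 hb).elim
              · exact (hn a ha (h2.1 a b h).1).elim
            · intro h; simp at h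
          · simp only [Equiv.Set.union_symm_apply_left, Equiv.Set.union_symm_apply_right, SimpleGraph.comap_adj,
              Function.Embedding.subtype_apply, SimpleGraph.sup_adj]
            constructor
            · rintro (h | h)
              · exact (hn a (h1.1 a b h).1 ha).elim
              · exact (hn b hb (h2.1 a b h).2).elim
            · intro h; simp at h
          · simp only [Equiv.Set.union_symm_apply_right, SimpleGraph.comap_adj, Function.Embedding.subtype_apply,
              SimpleGraph.sup_adj, SimpleGraph.sum_adj]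
            exact ⟨fun h => h.elim (fun h => (hn a (h1.1 a b h).1 ha).elim) id, Or.inr⟩ }
    have h := Built.iso e hu
    convert h using 1
    ext ⟨x, hx⟩
    rcases hx with hx | hx
    · have : e.symm ⟨x, Or.inl hx⟩ = Sum.inl ⟨x, hx⟩ := by
        apply e.symm_apply_eq.mpr; rfl
      simp [this, e1 x hx]
    · have : e.symm ⟨x, Or.inr hx⟩ = Sum.inr ⟨x, hx⟩ := by
        apply e.symm_apply_eq.mpr; rfl
      simp [this, e2 x hx]

theorem pp_join {V : Type} (k : ℕ) (S : Set V) (l0 : V → Fin k) (H H' : SimpleGraph V) (i j : Fin k)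
    (h : PP k S l0 H) (hij : i ≠ j)
    (hH : ∀ u v : V, H'.Adj u v ↔ (H.Adj u v ∨
      (u ∈ S ∧ v ∈ S ∧ ((l0 u = i ∧ l0 v = j) ∨ (l0 u = j ∧ l0 v = i))))) : PP k S l0 H' := by
  refine ⟨fun u v huv => ?_, ?_⟩
  · rcases (hH u v).mp huv with h1 | h1
    · exact h.1 u v h1
    · exact ⟨h1.1, h1.2.1⟩
  · have h1 := Built.join i j hij h.2
    convert h1 using 1
    ext ⟨u, hu⟩ ⟨v, hv⟩
    simp only [SimpleGraph.comap_adj, Function.Embedding.subtype_apply, hH u v, SimpleGraph.sup_adj,
      SimpleGraph.fromRel_adj, ne_eq, Subtype.mk.injEq, hu, hv, true_and]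
    constructor
    · rintro (h2 | ⟨h2, h3⟩ | ⟨h2, h3⟩)
      · exact Or.inl h2
      · exact Or.inr ⟨fun e => hij (by rw [← h2, ← h3, e]), Or.inl ⟨h2, h3⟩⟩
      · exact Or.inr ⟨fun e => hij (by rw [← h2, ← h3, e]), Or.inr ⟨h3, h2⟩⟩
    · rintro (h2 | ⟨_, ⟨h2, h3⟩ | ⟨h2, h3⟩⟩)
      · exact Or.inl h2
      · exact Or.inr (Or.inl ⟨h2, h3⟩)
      · exact Or.inr (Or.inr ⟨h3, h2⟩)

theorem pp_relabel {V : Type} (k : ℕ) (S : Set V) (l0 l' : V → Fin k) (H : SimpleGraph V) (i j : Fin k)
    (h : PP k S l0 H) (hl : ∀ u ∈ S, (l0 u = i → l' u = j) ∧ (l0 u ≠ i → l' u = l0 u)) : PP k S l' H := by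
  refine ⟨h.1, ?_⟩
  have h1 := Built.relabel i j h.2
  convert h1 using 1
  ext ⟨u, hu⟩
  by_cases hi : l0 u = i
  · simp [hi, (hl u hu).1 hi]
  · simp [hi, (hl u hu).2 hi]

theorem built_of_pp {V : Type} (k : ℕ) (l : V → Fin k) (G : SimpleGraph V) (h : PP k Set.univ l G) :
    Built k G l := by
  have e : G.induce Set.univ ≃g G := SimpleGraph.induceUnivIso G
  have h1 := Built.iso (SimpleGraph.induceUnivIso G) h.2
  exact h1

theorem built_lift {k : ℕ} {V : Type} {G : SimpleGraph V} {l : V → Fin k} (h : Built.{0} k G l) :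
    Built.{u} k (G.comap (ULift.down : ULift.{u} V → V)) fun x => l x.down := by
  induction h with
  | @vertex V _ l =>
    have e : (⊥ : SimpleGraph V).comap (ULift.down : ULift.{u} V → V) = ⊥ := by
      ext a b; simp
    rw [e]
    let _ : Unique (ULift.{u} V) := ⟨⟨⟨default⟩⟩, fun x => by cases x; congr; exact Subsingleton.elim _ _⟩
    exact Built.vertex _
  | @union V W G H l m _ _ h1 h2 =>
    have h3 := Built.union h1 h2
    let e : ((G.comap (ULift.down : ULift.{u} V → V)) ⊕g (H.comap (ULift.down : ULift.{u} W → W))) ≃g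
        ((G ⊕g H).comap (ULift.down : ULift.{u} (V ⊕ W) → V ⊕ W)) :=
      { toFun := fun x => match x with
          | Sum.inl a => ⟨Sum.inl a.down⟩
          | Sum.inr a => ⟨Sum.inr a.down⟩
        invFun := fun x => match x with
          | ⟨Sum.inl a⟩ => Sum.inl ⟨a⟩
          | ⟨Sum.inr a⟩ => Sum.inr ⟨a⟩
        left_inv := by rintro (⟨a⟩ | ⟨a⟩) <;> rfl
        right_inv := by rintro ⟨a | a⟩ <;> rfl
        map_rel_iff' := by rintro (⟨a⟩ | ⟨a⟩) (⟨b⟩ | ⟨b⟩) <;> simp }
    have h4 := Built.iso e h3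
    convert h4 using 1
    ext ⟨a | a⟩ <;> rfl
  | @join V G l i j hij _ h1 =>
    have h2 := Built.join i j hij h1
    convert h2 using 1
    ext ⟨a⟩ ⟨b⟩
    simp [SimpleGraph.fromRel_adj]
  | @relabel V G l i j _ h1 => exact Built.relabel i j h1
  | @iso V W G H l e _ h1 =>
    let e' : (G.comap (ULift.down : ULift.{u} V → V)) ≃g (H.comap (ULift.down : ULift.{u} W → W)) :=
      { toEquiv := Equiv.ulift.trans (e.toEquiv.trans Equiv.ulift.symm)
        map_rel_iff' := by
          rintro ⟨a⟩ ⟨b⟩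
          exact e.map_rel_iff' }
    exact Built.iso e' h1

theorem gem_iso : Nonempty (gem ≃g (SimpleGraph.fromRel (fun a b : Fin 5 => a.val + 1 = b.val ∧ b.val ≤ 3))ᶜ) := by
  refine ⟨⟨⟨Sum.elim (fun _ => 4) ![0, 1, 2, 3], fun x => ![Sum.inr 0, Sum.inr 1, Sum.inr 2, Sum.inr 3, Sum.inl 0] x, ?_, ?_⟩, ?_⟩⟩
  · decide
  · decide
  · intro a b
    rcases a with a | a <;> rcases b with b | b <;> fin_cases a <;> fin_cases b <;>
      simp [gem, SimpleGraph.pathGraph_adj, SimpleGraph.fromRel_adj]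

theorem edgePath_iso : Nonempty (edgePath ≃g SimpleGraph.fromRel (fun a b : Fin 5 =>
        (a.val = 0 ∧ b.val = 1) ∨ (a.val = 2 ∧ b.val = 3) ∨ (a.val = 3 ∧ b.val = 4))) := by
  refine ⟨⟨⟨Sum.elim ![0, 1] ![2, 3, 4], fun x => ![Sum.inl 0, Sum.inl 1, Sum.inr 0, Sum.inr 1, Sum.inr 2] x, ?_, ?_⟩, ?_⟩⟩
  · decide
  · decide
  · intro a b
    rcases a with a | a <;> rcases b with b | b <;> fin_cases a <;> fin_cases b <;>
      simp [edgePath, SimpleGraph.pathGraph_adj, SimpleGraph.fromRel_adj]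

theorem zero_universe : ∃ k : ℕ, ∀ (V : Type) [Finite V] [Nonempty V] (G : SimpleGraph V),
    IsEmpty (gem ↪g G) → IsEmpty (edgePath ↪g G) → ∃ l : V → Fin k, Built k G l := by
  have hX : ClassX kStat := fun V _ G q R hG h => classX_bound' hG h
  obtain ⟨kE, hE⟩ := EO_bound_of hX
  have hmany : ManyCompsStmt := manyComps_bound_of' ⟨kStat, hX⟩ ⟨kE, hE⟩
  obtain ⟨k1, h1⟩ := c5free_of noTwoP2_bound twoComps_bound hmany
  obtain ⟨k2, h2⟩ := c5_bound_of hX
  refine ⟨3 * (max k1 k2 + 1), ?_⟩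
  intro V _ _ G hgem hp
  obtain ⟨e1⟩ := gem_iso
  obtain ⟨e2⟩ := edgePath_iso
  have hG : Cls G := cls_of_isEmpty G ⟨fun f => hgem.elim (f.comp e1.toEmbedding)⟩
    ⟨fun f => hp.elim (f.comp e2.toEmbedding)⟩
  have hW : W G Set.univ (max k1 k2) := by
    by_cases h : NoC5 G
    · exact (h1 V G hG h).mono (le_max_left _ _)
    · exact (h2 V G hG h).mono (le_max_right _ _)
  obtain ⟨l, hl⟩ := cw_of_W G _ hW
  exact ⟨l, built_of_pp _ l G (hl (PP _) (fun v l0 => pp_vertex _ v l0)
    (fun S1 S2 l1 l2 l0 H1 H2 a b c d e => pp_union _ S1 S2 l1 l2 l0 H1 H2 a b c d e)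
    (fun S l0 H H' i j a b c => pp_join _ S l0 H H' i j a b c)
    (fun S l0 l' H i j a b => pp_relabel _ S l0 l' H i j a b))⟩

/-- `(gem, P₂ + P₃)`-free graphs have bounded clique-width: there is `k` such that every finite graph without an induced gem
and without an induced `P₂ + P₃` has clique-width at most `k`. -/
theorem result : ∃ k : ℕ, ∀ (V : Type u) [Finite V] (G : SimpleGraph V),
    IsEmpty (gem ↪g G) → IsEmpty (edgePath ↪g G) → CliqueWidthLe G k := by
  obtain ⟨k, hk⟩ := zero_universe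
  refine ⟨k, fun V _ G h1 h2 => ?_⟩
  rcases isEmpty_or_nonempty V with hV | hV
  · exact Or.inl hV
  right
  obtain ⟨n, ⟨e⟩⟩ := Finite.exists_equiv_fin V
  have : Nonempty (Fin n) := ⟨e (Classical.arbitrary V)⟩
  let G' : SimpleGraph (Fin n) := G.comap e.symm
  let f : G' ≃g G := SimpleGraph.Iso.comap e.symm G
  obtain ⟨l, hl⟩ := hk (Fin n) G' ⟨fun g => h1.elim (f.toEmbedding.comp g)⟩ ⟨fun g => h2.elim (f.toEmbedding.comp g)⟩
  have h3 := built_lift.{u} hl
  let f' : (G'.comap (ULift.down : ULift.{u} (Fin n) → Fin n)) ≃g G :=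
    (SimpleGraph.Iso.comap Equiv.ulift G').trans f
  exact ⟨_, Built.iso f' h3⟩

end Pool.Agent.Results.MP_57fa5f_co.BoundedCliqueWidth
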